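import Pool.Agent.helper7.RC.Mon
import Pool.Agent.helper66.RC.Fin
import Pool.Agent.helper80.RC.AR
import Pool.Agent.helper69.RC.Simple

/-!
# Varieties whose subdirectly irreducible members are smaller than the continuum
-/

namespace Pool.Agent.helper7.RC

open Pool.Agent.helper80.RSV Function

variable {W : Set (FreeGroup ℕ)}

theorem SmallSI.resSmall (hc : SmallSI W) : ResSmall W := ⟨Cardinal.continuum, fun G _ hG hS => hc G hG hS⟩

/-- subdirectly irreducible members are abelian by finite -/
theorem virtAb (hc : SmallSI W) {G : Type} [Group G] (hG : Sat W G) (hSI : SubdirIrr G) :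
    ∃ N : Subgroup G, N.Normal ∧ N.FiniteIndex ∧ AbSub N := by
  obtain ⟨M, hMn, hMne, hMle⟩ := hSI
  obtain ⟨⟨a, haM⟩, ha1⟩ := Subgroup.ne_bot_iff_exists_ne_one.mp hMne
  have ha : ASI a := ⟨fun h => ha1 (Subtype.ext h), fun N hN hne => hMle N hN hne haM⟩
  obtain ⟨E, _, ι, hι, hE, hb, hAR⟩ := Pool.Agent.helper80.RC.exists_AR hc hG ha
  obtain ⟨A, hA⟩ : ∃ A : Subgroup E, LeastNormal A := hb.subdirIrr
  have hcard : Cardinal.mk E < Cardinal.continuum := hc E hE hb.subdirIrr
  obtain ⟨K, hKn, hK⟩ := exists_K hE hAR hb.1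
  have hKC := K_le_centralizer hE hAR hb hcard hK hKn hA
  obtain ⟨k, hk⟩ := exists_U_le_K hE hAR hb hcard hK
  have hAn := hA.1
  obtain ⟨C, hC⟩ : ∃ C : Subgroup E, C = Subgroup.centralizer (A : Set E) := ⟨_, rfl⟩
  have hCn : C.Normal := by rw [hC]; infer_instance
  have hCf : C.FiniteIndex := by
    apply finiteIndex_of_U hc hE hb.1 (k := k)
    intro y hy
    by_contra h
    apply hy
    rw [hC]
    exact hKC (hk h)
  have hCab : AbSub C := by
    by_cases hAab : AbSub A
    · rw [hC]
      exact centralizer_abelian hA (zp_of_rs hc.resSmall hE)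
    · have hbot : C = ⊥ := by
        by_contra hne
        apply hAab
        intro x hx y hy
        have h1 := hA.2.2 C hCn hne hy
        rw [hC, Subgroup.mem_centralizer_iff] at h1
        exact h1 x hx
      intro x hx y hy
      rw [hbot, Subgroup.mem_bot] at hx hy
      rw [hx, hy]
  have hfi : (C.comap ι).FiniteIndex := by
    refine ⟨?_⟩
    rw [Subgroup.index_comap]
    exact (inferInstance : (C.subgroupOf ι.range).FiniteIndex).index_ne_zero
  refine ⟨C.comap ι, inferInstance, hfi, ?_⟩
  intro x hx y hy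
  apply hι
  rw [map_mul, map_mul]
  exact hCab _ hx _ hy

theorem final_RC (W : Set (FreeGroup ℕ)) :
    List.TFAE [
      ∀ (G : Type) [Group G], Sat W G → SubdirIrr G → Cardinal.mk G < Cardinal.continuum,
      ∀ (G : Type) [Group G], Sat W G → SubdirIrr G → Countable G,
      ∃ (F : Type) (_ : Group F), Finite F ∧ AbSylow F ∧
        ((∀ (G : Type) [Group G], Sat W G ↔ InVar F G) ∨
          (∀ (G : Type) [Group G], Sat W G ↔ InVar (F × Multiplicative ℤ) G))] := by
  tfae_have 1 → 3 := by
    intro hc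
    have hc' : SmallSI W := hc
    obtain ⟨B, hB⟩ := simple_bounded (W := W) fun G _ hG hS => virtAb hc' hG hS
    have hgen : GenVSB W B := by
      intro w hw G _ hG
      by_contra hcon
      unfold Law at hcon
      push Not at hcon
      obtain ⟨f, hf⟩ := hcon
      obtain ⟨N, hNn, -, haN, hmax⟩ := exists_max_avoid (N₀ := (⊥ : Subgroup G)) inferInstance
        (a := FreeGroup.lift f w) (by rw [Subgroup.mem_bot]; exact hf)
      have hq : Sat W (G ⧸ N) := hG.quotient N
      have hSI := subdirIrr_quotient haN hmax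
      obtain ⟨M, hMn, hMf, hMab⟩ := virtAb hc' hq hSI
      have hvs : VirtSol (G ⧸ N) := by
        refine ⟨M, hMn, hMf, ?_⟩
        exact Group.isSolvable_of_comm fun x y => Subtype.ext (hMab x x.2 y y.2)
      have hsec : SimpleSec B (G ⧸ N) := by
        intro K S _ φ hφ hfS hsS hna
        exact hB S ((hq.subgroup K).of_surjective φ hφ) hfS hsS hna
      have hlaw := hw (G ⧸ N) hvs hsec hq (fun i => (f i : G ⧸ N))
      apply haN
      rw [← QuotientGroup.eq_one_iff, ← hlaw]
      exact map_lift (QuotientGroup.mk' N) f w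
    have := (final W (Or.inl ⟨B, hgen⟩)).1
    exact this.mp hc'.resSmall
  tfae_have 3 → 2 := by
    rintro ⟨F, _, hFf, hFA, hF⟩
    exact fun G _ hG hSI => countable_of_class hFA hF G hG hSI
  tfae_have 2 → 1 := by
    intro h G _ hG hSI
    have := h G hG hSI
    exact lt_of_le_of_lt Cardinal.mk_le_aleph0 Cardinal.aleph0_lt_continuum
  tfae_finish

end Pool.Agent.helper7.RC
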