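import Pool.Agent.helper7.RC.Defs

/-!
# Limits and closed sets in an absolute retract
-/

namespace Pool.Agent.helper7.RC

open Pool.Agent.helper80.RSV Function

variable {W : Set (FreeGroup ℕ)} {E : Type} [Group E] {a : E}

/-- limits of sequences -/
def IsLim (r : (ℕ → E) →* E) : Prop :=
  (∀ x : E, r (fun _ => x) = x) ∧ ∀ f : ℕ → E, (∃ m, ∀ n, m ≤ n → f n = 1) → r f = 1

/-- maps compatible with all limits -/
def Cont (φ : E → E) : Prop :=
  ∀ r : (ℕ → E) →* E, IsLim r → ∀ x : ℕ → E, φ (r x) = r (fun n => φ (x n))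

/-- sets stable under all limits -/
def Clo (C : Set E) : Prop :=
  ∀ r : (ℕ → E) →* E, IsLim r → ∀ x : ℕ → E, (∀ n, x n ∈ C) → r x ∈ C

/-- the closure -/
def cl (S : Set E) : Set E := ⋂₀ {C | Clo C ∧ S ⊆ C}

/-- the neighbourhoods of `1` -/
def U (a : E) (k : ℕ) : Set E := {y | a ∉ Ncl k y}

/-! ### products of elements of `Kc` -/

theorem Kc_mul {u v x : E} (hx : x ∈ Kc (u * v)) : ∃ p ∈ Kc u, ∃ q ∈ Kc v, x = p * q := by
  obtain ⟨g, h, rfl⟩ := hx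
  refine ⟨(h * v⁻¹) * (u⁻¹ * (g * u * g⁻¹)) * (h * v⁻¹)⁻¹, ⟨g, h * v⁻¹, rfl⟩,
    h * (v⁻¹ * (g * v * g⁻¹)) * h⁻¹, ⟨g, h, rfl⟩, ?_⟩
  group

theorem Ncl_mul_sub {k : ℕ} {u v x : E} (hx : x ∈ Ncl k (u * v)) :
    ∃ p ∈ Ncl k u, ∃ q ∈ Ncl k v, x = p * q := by
  induction k generalizing x with
  | zero => exact ⟨1, one_mem_Ncl 0 u, 1, one_mem_Ncl 0 v, by
      have : x = 1 := hx
      rw [this, one_mul]⟩
  | succ k ih =>
    obtain ⟨y, hy, z, hz, rfl⟩ := hx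
    obtain ⟨p, hp, q, hq, rfl⟩ := Kc_mul hy
    obtain ⟨p', hp', q', hq', rfl⟩ := ih hz
    refine ⟨p * (q * p' * q⁻¹), ⟨p, hp, _, Ncl_conj hp' q, rfl⟩, q * q', ⟨q, hq, q', hq', rfl⟩, ?_⟩
    group

/-- a homomorphism on sequences maps sequences with terms in `Kc` to `Kc` -/
theorem kc_seq {r : (ℕ → E) →* E} {u q : ℕ → E} (h : ∀ n, q n ∈ Kc (u n)) : r q ∈ Kc (r u) := by
  choose g k hk using h
  refine ⟨r g, r k, ?_⟩
  have : q = k * (u⁻¹ * (g * u * g⁻¹)) * k⁻¹ := funext hk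
  rw [this]
  simp only [map_mul, map_inv]

theorem IsLim.ncl {r : (ℕ → E) →* E} {k : ℕ} {u q : ℕ → E}
    (h : ∀ n, q n ∈ Ncl k (u n)) : r q ∈ Ncl k (r u) := by
  induction k generalizing q with
  | zero =>
    have : q = 1 := funext h
    rw [this, map_one]
    exact one_mem_Ncl 0 _
  | succ k ih =>
    choose y hy z hz hq using h
    have : q = y * z := funext hq
    rw [this, map_mul]
    exact ⟨r y, kc_seq hy, r z, ih hz, rfl⟩

/-! ### limits -/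

/-- sequences tending to `1` are killed (with their commutators) by a limit -/
theorem lim2 (hE : Sat W E) (hAR : AR W E a) {y y' : ℕ → E}
    (h : ∀ n, ∀ p ∈ Ncl n (y n), ∀ q ∈ Ncl n (y' n), a ≠ p * q) :
    ∃ r : (ℕ → E) →* E, IsLim r ∧
      (∀ k, ∀ q : ℕ → E, (∀ n, q n ∈ Ncl k (y n)) → r q = 1) ∧
      (∀ k, ∀ q : ℕ → E, (∀ n, q n ∈ Ncl k (y' n)) → r q = 1) := by
  let N : Subgroup (ℕ → E) :=
    { carrier := {f | ∃ k m, ∀ n, m ≤ n → ∃ p ∈ Ncl k (y n), ∃ q ∈ Ncl k (y' n), f n = p * q}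
      one_mem' := ⟨0, 0, fun n _ => ⟨1, one_mem_Ncl _ _, 1, one_mem_Ncl _ _, (one_mul _).symm⟩⟩
      mul_mem' := by
        rintro f g ⟨k, m, hf⟩ ⟨l, m', hg⟩
        refine ⟨k + l, max m m', fun n hn => ?_⟩
        obtain ⟨p, hp, q, hq, e⟩ := hf n (le_trans (le_max_left _ _) hn)
        obtain ⟨p', hp', q', hq', e'⟩ := hg n (le_trans (le_max_right _ _) hn)
        refine ⟨p * (q * p' * q⁻¹), Ncl_mul hp (Ncl_conj hp' q), q * q', Ncl_mul hq hq', ?_⟩
        rw [Pi.mul_apply, e, e']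
        group
      inv_mem' := by
        rintro f ⟨k, m, hf⟩
        refine ⟨k, m, fun n hn => ?_⟩
        obtain ⟨p, hp, q, hq, e⟩ := hf n hn
        refine ⟨q⁻¹ * p⁻¹ * q⁻¹⁻¹, Ncl_conj (Ncl_inv hp) q⁻¹, q⁻¹, Ncl_inv hq, ?_⟩
        rw [Pi.inv_apply, e]
        group }
  have hN : N.Normal := by
    refine ⟨?_⟩
    rintro f ⟨k, m, hf⟩ g
    refine ⟨k, m, fun n hn => ?_⟩
    obtain ⟨p, hp, q, hq, e⟩ := hf n hn
    refine ⟨g n * p * (g n)⁻¹, Ncl_conj hp _, g n * q * (g n)⁻¹, Ncl_conj hq _, ?_⟩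
    rw [Pi.mul_apply, Pi.mul_apply, Pi.inv_apply, e]
    group
  let j : E →* (ℕ → E) := MonoidHom.mk' (fun x _ => x) (fun _ _ => rfl)
  have ha : j a ∉ N := by
    rintro ⟨k, m, hf⟩
    obtain ⟨p, hp, q, hq, e⟩ := hf (max k m) (le_max_right _ _)
    exact h (max k m) p (Ncl_mono (le_max_left _ _) hp) q (Ncl_mono (le_max_left _ _) hq) e
  obtain ⟨r, hr1, hr2⟩ := hAR (ℕ → E) (Sat.pi fun _ => hE) j N hN ha
  refine ⟨r, ⟨fun x => hr1 x, fun f hf => hr2 f ?_⟩, fun k q hq => hr2 q ?_, fun k q hq => hr2 q ?_⟩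
  · obtain ⟨m, hm⟩ := hf
    exact ⟨0, m, fun n hn => ⟨1, one_mem_Ncl _ _, 1, one_mem_Ncl _ _, by rw [hm n hn, one_mul]⟩⟩
  · exact ⟨k, 0, fun n _ => ⟨q n, hq n, 1, one_mem_Ncl _ _, (mul_one _).symm⟩⟩
  · exact ⟨k, 0, fun n _ => ⟨1, one_mem_Ncl _ _, q n, hq n, (one_mul _).symm⟩⟩

theorem Ncl_one {k : ℕ} {x : E} (hx : x ∈ Ncl k (1 : E)) : x = 1 := by
  induction k generalizing x with
  | zero => exact hx
  | succ k ih =>
    obtain ⟨y, ⟨g, h, hy⟩, z, hz, rfl⟩ := hx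
    rw [ih hz, hy]
    group

theorem lim1 (hE : Sat W E) (hAR : AR W E a) {y : ℕ → E} (h : ∀ n, y n ∈ U a n) :
    ∃ r : (ℕ → E) →* E, IsLim r ∧ (∀ k, ∀ q : ℕ → E, (∀ n, q n ∈ Ncl k (y n)) → r q = 1) := by
  obtain ⟨r, hr, h1, _⟩ := lim2 (y := y) (y' := fun _ => 1) hE hAR (fun n p hp q hq he => by
    rw [Ncl_one hq, mul_one] at he
    exact h n (he ▸ hp))
  exact ⟨r, hr, h1⟩

theorem U_anti {k l : ℕ} (h : k ≤ l) : U a l ⊆ U a k := fun _ hy hx => hy (Ncl_mono h hx)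

theorem one_mem_U (ha : a ≠ 1) (k : ℕ) : (1 : E) ∈ U a k := fun h => ha (Ncl_one h)

theorem U_conj {k : ℕ} {y : E} (hy : y ∈ U a k) (g : E) : g * y * g⁻¹ ∈ U a k := by
  intro h
  rw [Ncl_of_conj] at h
  exact hy h

theorem Kc_inv_eq {y x : E} (hx : x ∈ Kc y⁻¹) : x ∈ Kc y := by
  obtain ⟨g, h, rfl⟩ := hx
  have h1 : h * (y⁻¹⁻¹ * (g * y⁻¹ * g⁻¹)) * h⁻¹ = h * (y * g * y⁻¹ * g⁻¹) * h⁻¹ := by group
  rw [h1]
  exact Kc_conj (comm_mem_Kc' y g) h

theorem Ncl_inv_eq {k : ℕ} {y x : E} (hx : x ∈ Ncl k y⁻¹) : x ∈ Ncl k y := by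
  induction k generalizing x with
  | zero => exact hx
  | succ k ih =>
    obtain ⟨u, hu, z, hz, rfl⟩ := hx
    exact ⟨u, Kc_inv_eq hu, z, ih hz, rfl⟩

theorem U_inv {k : ℕ} {y : E} (hy : y ∈ U a k) : y⁻¹ ∈ U a k := fun h => hy (Ncl_inv_eq h)

theorem U_two (hE : Sat W E) (hAR : AR W E a) {k : ℕ} {u : E} (hu : u ∈ U a k) :
    ∃ l, ∀ v ∈ U a l, ∀ p ∈ Ncl k u, ∀ q ∈ Ncl k v, a ≠ p * q := by
  by_contra hcon
  push Not at hcon
  choose v hv p hp q hq he using hcon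
  obtain ⟨r, hr, h1⟩ := lim1 hE hAR hv
  have h2 : r q = 1 := h1 k q hq
  have h3 : r p ∈ Ncl k (r fun _ => u) := IsLim.ncl hp
  have h4 : r (fun _ => a) = r p * r q := by
    rw [← map_mul]
    congr 1
    exact funext he
  rw [hr.1, h2, mul_one] at h4
  rw [hr.1, ← h4] at h3
  exact hu h3

theorem U_mul (hE : Sat W E) (hAR : AR W E a) {k : ℕ} {u : E} (hu : u ∈ U a k) :
    ∃ l, ∀ v ∈ U a l, u * v ∈ U a k := by
  obtain ⟨l, hl⟩ := U_two hE hAR hu
  refine ⟨l, fun v hv h => ?_⟩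
  obtain ⟨p, hp, q, hq, e⟩ := Ncl_mul_sub h
  exact hl v hv p hp q hq e

theorem exists_isLim (hE : Sat W E) (hAR : AR W E a) (ha : a ≠ 1) :
    ∃ r : (ℕ → E) →* E, IsLim r := by
  obtain ⟨r, hr, _⟩ := lim1 (y := fun _ => 1) hE hAR (fun n => one_mem_U ha n)
  exact ⟨r, hr⟩

theorem IsLim.congr {r : (ℕ → E) →* E} (hr : IsLim r) {f g : ℕ → E}
    (h : ∃ m, ∀ n, m ≤ n → f n = g n) : r f = r g := by
  obtain ⟨m, hm⟩ := h
  have h1 : r (f * g⁻¹) = 1 := hr.2 _ ⟨m, fun n hn => by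
    rw [Pi.mul_apply, Pi.inv_apply, hm n hn, mul_inv_cancel]⟩
  rw [map_mul, map_inv] at h1
  exact mul_inv_eq_one.mp h1

theorem Cont.id : Cont (fun x : E => x) := fun _ _ _ => rfl

theorem Cont.const (c : E) : Cont (fun _ : E => c) := fun _ hr _ => (hr.1 c).symm

theorem Cont.mul {φ ψ : E → E} (hφ : Cont φ) (hψ : Cont ψ) : Cont (fun x => φ x * ψ x) := by
  intro r hr x
  show φ (r x) * ψ (r x) = r ((fun n => φ (x n)) * (fun n => ψ (x n)))
  rw [map_mul, hφ r hr, hψ r hr]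

theorem Cont.inv {φ : E → E} (hφ : Cont φ) : Cont (fun x => (φ x)⁻¹) := by
  intro r hr x
  show (φ (r x))⁻¹ = r ((fun n => φ (x n))⁻¹)
  rw [map_inv, hφ r hr]

theorem Cont.comp {φ ψ : E → E} (hφ : Cont φ) (hψ : Cont ψ) : Cont (fun x => φ (ψ x)) := by
  intro r hr x
  show φ (ψ (r x)) = r fun n => φ (ψ (x n))
  rw [hψ r hr, hφ r hr]

theorem clo_range {φ : E → E} (hφ : Cont φ) : Clo (Set.range φ) := by
  intro r hr x hx
  choose y hy using hx
  refine ⟨r y, ?_⟩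
  rw [hφ r hr]
  congr 1
  exact funext hy

theorem clo_eq {φ ψ : E → E} (hφ : Cont φ) (hψ : Cont ψ) : Clo {x | φ x = ψ x} := by
  intro r hr x hx
  show φ (r x) = ψ (r x)
  rw [hφ r hr, hψ r hr]
  congr 1
  exact funext hx

theorem Clo.preimage {C : Set E} (hC : Clo C) {φ : E → E} (hφ : Cont φ) : Clo (φ ⁻¹' C) := by
  intro r hr x hx
  show φ (r x) ∈ C
  rw [hφ r hr]
  exact hC r hr _ hx

/-- left translates of closed sets are closed -/
theorem Clo.image_mul {C : Set E} (hC : Clo C) (g : E) : Clo ((fun x => g * x) '' C) := by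
  intro r hr x hx
  choose y hy hxy using hx
  refine ⟨r y, hC r hr y hy, ?_⟩
  have : x = (fun _ => g) * y := funext fun n => (hxy n).symm
  rw [this, map_mul, hr.1]

theorem Clo.eventually {C : Set E} (hC : Clo C) {r : (ℕ → E) →* E} (hr : IsLim r) {x : ℕ → E}
    (h : ∃ m, ∀ n, m ≤ n → x n ∈ C) : r x ∈ C := by
  obtain ⟨m, hm⟩ := h
  have h1 : r x = r (fun n => x (max m n)) := hr.congr ⟨m, fun n hn => by
    rw [max_eq_right hn]⟩
  rw [h1]
  exact hC r hr _ fun n => hm _ (le_max_left _ _)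

theorem clo_cl (S : Set E) : Clo (cl S) := by
  intro r hr x hx C hC
  exact hC.1 r hr x fun n => hx n C hC

theorem subset_cl (S : Set E) : S ⊆ cl S := fun _ hx _ hC => hC.2 hx

theorem cl_min {S C : Set E} (hC : Clo C) (h : S ⊆ C) : cl S ⊆ C := fun _ hx => hx C ⟨hC, h⟩

theorem cl_mono {S T : Set E} (h : S ⊆ T) : cl S ⊆ cl T :=
  cl_min (clo_cl T) (h.trans (subset_cl T))

/-- `g cl S = cl (g S)`, one inclusion -/
theorem mul_cl {S T : Set E} {g : E} (h : ∀ x ∈ S, g * x ∈ T) : ∀ x ∈ cl S, g * x ∈ cl T := by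
  have h1 : Clo ((fun x => g * x) ⁻¹' cl T) :=
    (clo_cl T).preimage ((Cont.const g).mul Cont.id)
  exact cl_min h1 fun x hx => subset_cl T (h x hx)

theorem cl_mul {S T : Set E} {g : E} (h : ∀ x ∈ S, x * g ∈ T) : ∀ x ∈ cl S, x * g ∈ cl T := by
  have h1 : Clo ((fun x => x * g) ⁻¹' cl T) :=
    (clo_cl T).preimage (Cont.id.mul (Cont.const g))
  exact cl_min h1 fun x hx => subset_cl T (h x hx)

theorem cl_conj {S T : Set E} {g : E} (h : ∀ x ∈ S, g * x * g⁻¹ ∈ T) :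
    ∀ x ∈ cl S, g * x * g⁻¹ ∈ cl T := by
  have h1 : Clo ((fun x => g * x * g⁻¹) ⁻¹' cl T) :=
    (clo_cl T).preimage (((Cont.const g).mul Cont.id).mul (Cont.const g⁻¹))
  exact cl_min h1 fun x hx => subset_cl T (h x hx)

theorem cl_inv {S T : Set E} (h : ∀ x ∈ S, x⁻¹ ∈ T) : ∀ x ∈ cl S, x⁻¹ ∈ cl T := by
  have h1 : Clo ((fun x => x⁻¹) ⁻¹' cl T) := (clo_cl T).preimage Cont.id.inv
  exact cl_min h1 fun x hx => subset_cl T (h x hx)

/-- initial segments of a binary sequence, in reverse order -/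
def pre (f : ℕ → Bool) : ℕ → List Bool
  | 0 => []
  | n + 1 => f n :: pre f n

/-- the tree lemma -/
theorem tree (hE : Sat W E) (hAR : AR W E a) (ha : a ≠ 1)
    (hcard : Cardinal.mk E < Cardinal.continuum) {F : Set (Set E)} (hF : F.Nonempty)
    (hclo : ∀ C ∈ F, Clo C) (hne : ∀ C ∈ F, C.Nonempty) :
    ∃ C ∈ F, ∀ C0 ∈ F, ∀ C1 ∈ F, C0 ⊆ C → C1 ⊆ C → (C0 ∩ C1).Nonempty := by
  by_contra hcon
  push Not at hcon
  obtain ⟨Cs, hCs⟩ := hF
  choose c0 h0 c1 h1 hs0 hs1 hd using hcon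
  let G0 : {C // C ∈ F} → {C // C ∈ F} := fun C => ⟨c0 C.1 C.2, h0 C.1 C.2⟩
  let G1 : {C // C ∈ F} → {C // C ∈ F} := fun C => ⟨c1 C.1 C.2, h1 C.1 C.2⟩
  let D : List Bool → {C // C ∈ F} := fun l =>
    List.rec ⟨Cs, hCs⟩ (fun b _ C => if b then G1 C else G0 C) l
  have hD : ∀ b l, D (b :: l) = if b then G1 (D l) else G0 (D l) := fun b l => rfl
  have hsub : ∀ b l, (D (b :: l)).1 ⊆ (D l).1 := by
    intro b l
    rw [hD]
    cases b
    · exact hs0 _ _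
    · exact hs1 _ _
  choose pt hpt using fun l => hne (D l).1 (D l).2
  obtain ⟨r, hr⟩ := exists_isLim hE hAR ha
  have hdec : ∀ (f : ℕ → Bool) (m n : ℕ), m ≤ n → (D (pre f n)).1 ⊆ (D (pre f m)).1 := by
    intro f m n hmn
    induction hmn with
    | refl => exact fun _ h => h
    | step _ ih => exact (hsub _ _).trans ih
  let P : (ℕ → Bool) → E := fun f => r fun n => pt (pre f n)
  have hP : ∀ f m, P f ∈ (D (pre f m)).1 := fun f m =>
    (hclo _ (D (pre f m)).2).eventually hr ⟨m, fun n hn => hdec f m n hn (hpt _)⟩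
  have hinj : Injective P := by
    intro f g hfg
    by_contra hne'
    have hex : ∃ n, f n ≠ g n := by
      by_contra h
      push Not at h
      exact hne' (funext h)
    classical
    let n := Nat.find hex
    have hn : f n ≠ g n := Nat.find_spec hex
    have hlt : ∀ m, m < n → f m = g m := fun m hm => by
      by_contra h
      exact Nat.find_min hex hm h
    have hpre : ∀ m, m ≤ n → pre f m = pre g m := by
      intro m
      induction m with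
      | zero => intro _; rfl
      | succ m ih =>
        intro hm
        show f m :: pre f m = g m :: pre g m
        rw [hlt m hm, ih (Nat.le_of_succ_le hm)]
    have e1 : P f ∈ (D (f n :: pre f n)).1 := hP f (n + 1)
    have e2 : P f ∈ (D (g n :: pre f n)).1 := by
      have := hP g (n + 1)
      rw [← hfg] at this
      have e3 : pre g (n + 1) = g n :: pre f n := by
        show g n :: pre g n = _
        rw [hpre n le_rfl]
      rw [e3] at this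
      exact this
    have e4 : P f ∈ (G0 (D (pre f n))).1 ∩ (G1 (D (pre f n))).1 := by
      rw [hD] at e1 e2
      cases hf : f n <;> cases hg : g n <;> rw [hf] at e1 <;> rw [hg] at e2
      · exact absurd (hf.trans hg.symm) hn
      · exact ⟨e1, e2⟩
      · exact ⟨e2, e1⟩
      · exact absurd (hf.trans hg.symm) hn
    have e5 := hd (D (pre f n)).1 (D (pre f n)).2
    exact Set.not_nonempty_iff_eq_empty.mpr e5 ⟨_, e4⟩
  have h2 : Cardinal.mk (ℕ → Bool) ≤ Cardinal.mk E := Cardinal.mk_le_of_injective hinj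
  have h3 : Cardinal.mk (ℕ → Bool) = Cardinal.continuum := by simp
  rw [h3] at h2
  exact absurd (lt_of_le_of_lt h2 hcard) (lt_irrefl _)

/-- the intersection of the `cl (U k)` is a normal subgroup -/
theorem exists_K (hE : Sat W E) (hAR : AR W E a) (ha : a ≠ 1) :
    ∃ K : Subgroup E, K.Normal ∧ ∀ x, x ∈ K ↔ ∀ k, x ∈ cl (U a k) := by
  have hmul : ∀ x y : E, (∀ k, x ∈ cl (U a k)) → (∀ k, y ∈ cl (U a k)) → ∀ k, x * y ∈ cl (U a k) := by
    intro x y hx hy k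
    -- `U k * y ⊆ cl (U k)`
    have h1 : ∀ u ∈ U a k, u * y ∈ cl (U a k) := by
      intro u hu
      obtain ⟨l, hl⟩ := U_mul hE hAR hu
      exact mul_cl hl y (hy l)
    have h2 : ∀ u ∈ cl (U a k), u * y ∈ cl (cl (U a k)) := cl_mul h1
    exact cl_min (clo_cl _) (fun _ h => h) (h2 x (hx k))
  refine ⟨{ carrier := {x | ∀ k, x ∈ cl (U a k)}
            one_mem' := fun k => subset_cl _ (one_mem_U ha k)
            mul_mem' := fun {x y} hx hy => hmul x y hx hy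
            inv_mem' := fun {x} hx k => cl_inv (fun y hy => U_inv hy) x (hx k) }, ⟨?_⟩,
    fun x => Iff.rfl⟩
  intro x hx g k
  exact cl_conj (fun y hy => U_conj hy g) x (hx k)

end Pool.Agent.helper7.RC
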