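import Pool.Agent.helper80.RSV.Final

/-!
# Residually countable varieties of groups: definitions
-/

namespace Pool.Agent.helper7.RC

open Pool.Agent.helper80.RSV Function

/-- `a ≠ 1` lies in every nontrivial normal subgroup -/
def ASI {G : Type*} [Group G] (a : G) : Prop :=
  a ≠ 1 ∧ ∀ N : Subgroup G, N.Normal → N ≠ ⊥ → a ∈ N

/-- `E` is an absolute retract in the variety, relative to `a` -/
def AR (W : Set (FreeGroup ℕ)) (E : Type) [Group E] (a : E) : Prop :=
  ∀ (H : Type) [Group H], Sat W H → ∀ j : E →* H, ∀ N : Subgroup H, N.Normal → j a ∉ N →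
    ∃ r : H →* E, (∀ x, r (j x) = x) ∧ ∀ x ∈ N, r x = 1

/-- all subdirectly irreducible members have cardinality less than the continuum -/
def SmallSI (W : Set (FreeGroup ℕ)) : Prop :=
  ∀ (G : Type) [Group G], Sat W G → SubdirIrr G → Cardinal.mk G < Cardinal.continuum

/-- sequences that are eventually `1` -/
def Ev (G : ℕ → Type) [∀ n, Group (G n)] : Subgroup (∀ n, G n) where
  carrier := {f | ∃ m, ∀ n, m ≤ n → f n = 1}
  one_mem' := ⟨0, fun _ _ => rfl⟩
  mul_mem' := by
    rintro f g ⟨m, hm⟩ ⟨m', hm'⟩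
    exact ⟨max m m', fun n hn => by
      rw [Pi.mul_apply, hm n (le_trans (le_max_left _ _) hn), hm' n (le_trans (le_max_right _ _) hn),
        one_mul]⟩
  inv_mem' := by
    rintro f ⟨m, hm⟩
    exact ⟨m, fun n hn => by rw [Pi.inv_apply, hm n hn, inv_one]⟩

theorem mem_Ev {G : ℕ → Type} [∀ n, Group (G n)] {f : ∀ n, G n} :
    f ∈ Ev G ↔ ∃ m, ∀ n, m ≤ n → f n = 1 := Iff.rfl

theorem Ev_normal (G : ℕ → Type) [∀ n, Group (G n)] : (Ev G).Normal := by
  refine ⟨fun f hf g => ?_⟩
  obtain ⟨m, hm⟩ := hf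
  exact ⟨m, fun n hn => by
    rw [Pi.mul_apply, Pi.mul_apply, hm n hn, mul_one, Pi.inv_apply, mul_inv_cancel]⟩

theorem aSI_ne {G : Type*} [Group G] {a : G} (h : ASI a) : a ≠ 1 := h.1

/-- a group with an element as in `ASI` is subdirectly irreducible -/
theorem ASI.subdirIrr {G : Type*} [Group G] {a : G} (h : ASI a) : SubdirIrr G := by
  refine ⟨Subgroup.normalClosure {a}, inferInstance, ?_, ?_⟩
  · intro hb
    have h1 : a ∈ Subgroup.normalClosure {a} := Subgroup.subset_normalClosure rfl
    rw [hb, Subgroup.mem_bot] at h1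
    exact h.1 h1
  · intro N hN hne
    have := hN
    apply Subgroup.normalClosure_le_normal
    rintro x rfl
    exact h.2 N hN hne

/-- the quotient by a normal subgroup maximal among those avoiding `a` -/
theorem aSI_quotient {G : Type*} [Group G] {N : Subgroup G} [N.Normal] {a : G} (ha : a ∉ N)
    (hmax : ∀ K : Subgroup G, K.Normal → N ≤ K → N ≠ K → a ∈ K) : ASI (a : G ⧸ N) := by
  refine ⟨fun h => ha ((QuotientGroup.eq_one_iff a).mp h), fun K hK hne => ?_⟩
  have := hK
  have h1 : a ∈ K.comap (QuotientGroup.mk' N) := by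
    apply hmax _ inferInstance
    · intro x hx
      rw [Subgroup.mem_comap]
      have : (QuotientGroup.mk' N) x = 1 := (QuotientGroup.eq_one_iff x).mpr hx
      rw [this]; exact K.one_mem
    · intro hEq
      apply hne
      rw [eq_bot_iff]
      intro y hy
      obtain ⟨x, rfl⟩ := QuotientGroup.mk_surjective y
      have : x ∈ K.comap (QuotientGroup.mk' N) := hy
      rw [← hEq] at this
      rw [Subgroup.mem_bot]
      exact (QuotientGroup.eq_one_iff x).mpr this
  exact h1

end Pool.Agent.helper7.RC
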