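import Pool.Agent.helper7.RC.Basic

/-!
# The subgroup `K` centralises the monolith
-/

namespace Pool.Agent.helper7.RC

open Pool.Agent.helper80.RSV Function
open scoped commutatorElement

variable {W : Set (FreeGroup ℕ)} {E : Type} [Group E] {a : E}

/-- the map `s ↦ ψ (g y⁻¹ (s y s⁻¹))` -/
def tw (ψ : E → E) (g y s : E) : E := ψ (g * (y⁻¹ * (s * y * s⁻¹)))

theorem tw_one (ψ : E → E) (g y : E) : tw ψ g y 1 = ψ g := by
  unfold tw
  congr 1
  group

theorem cont_tw {ψ : E → E} (hψ : Cont ψ) (g y : E) : Cont (tw ψ g y) :=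
  hψ.comp ((Cont.const g).mul ((Cont.const y⁻¹).mul ((Cont.id.mul (Cont.const y)).mul Cont.id.inv)))

theorem cont_tw' {ψ : E → E} (hψ : Cont ψ) (g s : E) : Cont (fun y => tw ψ g y s) :=
  hψ.comp ((Cont.const g).mul
    (Cont.id.inv.mul (((Cont.const s).mul Cont.id).mul (Cont.const s⁻¹))))

/-- for small `y`, `y'` the ranges are disjoint -/
theorem tw_disjoint (hE : Sat W E) (hAR : AR W E a) {ψ : E → E} (hψ : Cont ψ) {g g' : E}
    (hne : ψ g ≠ ψ g') :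
    ∃ k, ∀ y ∈ U a k, ∃ l, ∀ y' ∈ U a l, ∀ s s', tw ψ g y s ≠ tw ψ g' y' s' := by
  by_contra hcon
  push Not at hcon
  choose y hy hcon using hcon
  choose l hl using fun n => U_two hE hAR (hy n)
  choose y' hy' s s' hs using fun n => hcon n (l n)
  obtain ⟨r, hr, h1, h2⟩ := lim2 (y := y) (y' := y') hE hAR
    (fun n p hp q hq => hl n (y' n) (hy' n) p hp q hq)
  have e1 : r (fun n => (y n)⁻¹ * (s n * y n * (s n)⁻¹)) = 1 :=
    h1 1 _ fun n => Kc_sub_Ncl_one (comm_mem_Kc _ _)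
  have e2 : r (fun n => (y' n)⁻¹ * (s' n * y' n * (s' n)⁻¹)) = 1 :=
    h2 1 _ fun n => Kc_sub_Ncl_one (comm_mem_Kc _ _)
  have e3 : r (fun n => g * ((y n)⁻¹ * (s n * y n * (s n)⁻¹))) = g := by
    have : (fun n => g * ((y n)⁻¹ * (s n * y n * (s n)⁻¹))) =
      (fun _ => g) * (fun n => (y n)⁻¹ * (s n * y n * (s n)⁻¹)) := rfl
    rw [this, map_mul, e1, hr.1, mul_one]
  have e4 : r (fun n => g' * ((y' n)⁻¹ * (s' n * y' n * (s' n)⁻¹))) = g' := by
    have : (fun n => g' * ((y' n)⁻¹ * (s' n * y' n * (s' n)⁻¹))) =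
      (fun _ => g') * (fun n => (y' n)⁻¹ * (s' n * y' n * (s' n)⁻¹)) := rfl
    rw [this, map_mul, e2, hr.1, mul_one]
  apply hne
  have e5 := hψ r hr (fun n => g * ((y n)⁻¹ * (s n * y n * (s n)⁻¹)))
  have e6 := hψ r hr (fun n => g' * ((y' n)⁻¹ * (s' n * y' n * (s' n)⁻¹)))
  rw [e3] at e5
  rw [e4] at e6
  rw [e5, e6]
  congr 1
  exact funext hs

theorem K_le_centralizer (hE : Sat W E)
    (hAR : AR W E a) (ha : ASI a) (hcard : Cardinal.mk E < Cardinal.continuum)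
    {K : Subgroup E} (hK : ∀ x, x ∈ K ↔ ∀ k, x ∈ cl (U a k)) (hKn : K.Normal)
    {A : Subgroup E} (hA : LeastNormal A) : K ≤ Subgroup.centralizer (A : Set E) := by
  by_contra hcon
  have hAn := hA.1
  have haA : a ∈ A := ha.2 A hA.1 hA.2.1
  -- the commutator subgroup `[K, A]` contains `A`
  have hAB : A ≤ ⁅K, A⁆ := by
    apply hA.2.2 ⁅K, A⁆ inferInstance
    intro hbot
    exact hcon (Subgroup.commutator_eq_bot_iff_le_centralizer.mp hbot)
  -- the family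
  let F : Set (Set E) := {C | ∃ ψ : E → E, Cont ψ ∧ (∃ g, ∃ α ∈ A, ψ (g * α) ≠ ψ g) ∧
    C = Set.range ψ}
  have hF : F.Nonempty := ⟨Set.range (fun x => x), fun x => x, Cont.id,
    ⟨1, a, haA, by rw [one_mul]; exact ha.1⟩, rfl⟩
  have hclo : ∀ C ∈ F, Clo C := by
    rintro C ⟨ψ, hψ, -, rfl⟩
    exact clo_range hψ
  have hne : ∀ C ∈ F, C.Nonempty := by
    rintro C ⟨ψ, -, -, rfl⟩
    exact ⟨ψ 1, 1, rfl⟩
  obtain ⟨C, ⟨ψ, hψ, ⟨g0, α0, hα0, hg0⟩, rfl⟩, hC⟩ := tree hE hAR ha.1 hcard hF hclo hne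
  have hsub : ∀ g y, Set.range (tw ψ g y) ⊆ Set.range ψ := by
    rintro g y _ ⟨s, rfl⟩
    exact ⟨_, rfl⟩
  -- bad points
  let bad : E → Prop := fun g => ∃ k, ∀ y ∈ U a k, ∀ s, ∀ α ∈ A, tw ψ g y (s * α) = tw ψ g y s
  have hgood : ∀ g g', ¬ bad g → ¬ bad g' → ψ g = ψ g' := by
    intro g g' hg hg'
    by_contra hgg
    obtain ⟨k, hk⟩ := tw_disjoint hE hAR hψ hgg
    simp only [bad] at hg hg'
    push Not at hg hg'
    obtain ⟨y, hy, s, α, hα, h1⟩ := hg k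
    obtain ⟨l, hl⟩ := hk y hy
    obtain ⟨y', hy', s', α', hα', h1'⟩ := hg' l
    obtain ⟨x, ⟨t, ht⟩, ⟨t', ht'⟩⟩ := hC (Set.range (tw ψ g y)) ⟨_, cont_tw hψ g y, ⟨s, α, hα, h1⟩, rfl⟩
      (Set.range (tw ψ g' y')) ⟨_, cont_tw hψ g' y', ⟨s', α', hα', h1'⟩, rfl⟩ (hsub g y) (hsub g' y')
    exact hl y' hy' t t' (ht.trans ht'.symm)
  obtain ⟨e, he⟩ : ∃ e, ∀ g, ψ g ≠ e → bad g := by
    by_cases h : ∃ g, ¬ bad g
    · obtain ⟨g1, hg1⟩ := h
      refine ⟨ψ g1, fun g hg => ?_⟩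
      by_contra hb
      exact hg (hgood g g1 hb hg1)
    · push Not at h
      exact ⟨1, fun g _ => h g⟩
  -- invariance under commutators
  have hinv : ∀ g, ψ g ≠ e → ∀ y ∈ K, ∀ α ∈ A, ψ (g * ⁅y, α⁆) = ψ g := by
    intro g hg y hy α hα
    obtain ⟨k, hk⟩ := he g hg
    have h1 : Clo {z : E | tw ψ g z α = ψ g} := clo_eq (cont_tw' hψ g α) (Cont.const _)
    have h2 : U a k ⊆ {z : E | tw ψ g z α = ψ g} := by
      intro z hz
      have := hk z hz 1 α hα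
      rw [one_mul, tw_one] at this
      exact this
    have h3 : y⁻¹ ∈ {z : E | tw ψ g z α = ψ g} :=
      cl_min h1 h2 ((hK y⁻¹).mp (K.inv_mem hy) k)
    have h4 : tw ψ g y⁻¹ α = ψ g := h3
    rw [← h4]
    unfold tw
    congr 2
    rw [commutatorElement_def]
    group
  let p : E → Prop := fun b => ∀ g, ψ g ≠ e → ψ (g * b) = ψ g
  have hp : ∀ b ∈ ⁅K, A⁆, p b ∧ p b⁻¹ := by
    intro b hb
    rw [Subgroup.commutator_def] at hb
    induction hb using Subgroup.closure_induction with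
    | mem x hx =>
      obtain ⟨y, hy, α, hα, rfl⟩ := hx
      refine ⟨fun g hg => hinv g hg y hy α hα, fun g hg => ?_⟩
      have h1 : ⁅y, α⁆⁻¹ = ⁅α * y * α⁻¹, α⁻¹⁆ := by
        rw [commutatorElement_def, commutatorElement_def]
        group
      rw [h1]
      exact hinv g hg _ (hKn.conj_mem y hy α) _ (A.inv_mem hα)
    | one =>
      refine ⟨fun g _ => by rw [mul_one], fun g _ => by rw [inv_one, mul_one]⟩
    | mul x y _ _ hx hy =>
      refine ⟨fun g hg => ?_, fun g hg => ?_⟩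
      · have h1 := hx.1 g hg
        rw [← mul_assoc, hy.1 (g * x) (by rw [h1]; exact hg), h1]
      · have h1 := hy.2 g hg
        rw [mul_inv_rev, ← mul_assoc, hx.2 (g * y⁻¹) (by rw [h1]; exact hg), h1]
    | inv x _ hx => exact ⟨hx.2, by rw [inv_inv]; exact hx.1⟩
  have hall : ∀ g, ∀ b ∈ A, ψ (g * b) = ψ g := by
    intro g b hb
    have h1 := hp b (hAB hb)
    by_cases hg : ψ g = e
    · by_contra hne'
      have h2 : ψ (g * b) ≠ e := by rw [← hg]; exact hne'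
      have h3 := h1.2 (g * b) h2
      rw [mul_assoc, mul_inv_cancel, mul_one] at h3
      exact hne' h3.symm
    · exact h1.1 g hg
  exact hg0 (hall g0 α0 hα0)

end Pool.Agent.helper7.RC
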